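import Mathlib

/-!
# The coordinate ring of four concurrent lines, and derivations of `ℂ`
-/

open MvPolynomial

noncomputable section

namespace Pool.Agent.Helper2.MS

/-- The equation of four lines through the origin of the plane. -/
def quartic (l : ℂ) : MvPolynomial (Fin 2) ℂ := X 0 * X 1 * (X 0 - X 1) * (X 0 - C l * X 1)

/-- The coordinate ring of the four lines. -/
abbrev CoordRing (l : ℂ) : Type := MvPolynomial (Fin 2) ℂ ⧸ Ideal.span {quartic l}

/-- Evaluation along a line through the origin. -/
def ev (α β : ℂ) : MvPolynomial (Fin 2) ℂ →ₐ[ℂ] Polynomial ℂ :=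
  aeval ![Polynomial.C α * Polynomial.X, Polynomial.C β * Polynomial.X]

lemma ev_X0 (α β : ℂ) : ev α β (X 0) = Polynomial.C α * Polynomial.X := by simp [ev]

lemma ev_X1 (α β : ℂ) : ev α β (X 1) = Polynomial.C β * Polynomial.X := by simp [ev]

lemma ev_C (α β c : ℂ) : ev α β (C c) = Polynomial.C c := by simp [ev]

lemma coeff_ev (α β : ℂ) (a : MvPolynomial (Fin 2) ℂ) :
    (ev α β a).coeff 1 = α * coeff (Finsupp.single 0 1) a + β * coeff (Finsupp.single 1 1) a := by
  induction a using MvPolynomial.induction_on' with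
  | add p q hp hq => rw [map_add, Polynomial.coeff_add, hp, hq, coeff_add, coeff_add]; ring
  | monomial s c =>
    have h1 : ev α β (monomial s c) = Polynomial.C (c * α ^ s 0 * β ^ s 1) *
        Polynomial.X ^ (s 0 + s 1) := by
      rw [ev, aeval_monomial, Finsupp.prod_fintype _ _ (by simp)]
      simp [Fin.prod_univ_two, mul_pow, pow_add]
      ring
    rw [h1, Polynomial.coeff_C_mul_X_pow, coeff_monomial, coeff_monomial]
    by_cases h : s 0 + s 1 = 1
    · rcases Nat.eq_zero_or_pos (s 0) with h0 | h0
      · have h2 : s 1 = 1 := by omega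
        have hs : s = Finsupp.single 1 1 := by
          ext i; fin_cases i
          · simpa using h0
          · simpa using h2
        rw [hs]
        simp [Finsupp.single_left_inj]
        ring
      · have h2 : s 0 = 1 := by omega
        have h3 : s 1 = 0 := by omega
        have hs : s = Finsupp.single 0 1 := by
          ext i; fin_cases i
          · simpa using h2
          · simpa using h3
        rw [hs]
        simp [Finsupp.single_left_inj]
        ring
    · have hs0 : s ≠ Finsupp.single 0 1 := fun e => h (by rw [e]; simp)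
      have hs1 : s ≠ Finsupp.single 1 1 := fun e => h (by rw [e]; simp)
      rw [if_neg (fun e => h e.symm), if_neg hs0, if_neg hs1]
      ring

lemma snd_quartic {A : Type} [CommRing A] (x y z : DualNumber A) :
    TrivSqZeroExt.snd (x * y * (x - y) * (x - z * y)) =
      x.snd * y.fst * (x.fst - y.fst) * (x.fst - z.fst * y.fst)
      + x.fst * y.snd * (x.fst - y.fst) * (x.fst - z.fst * y.fst)
      + x.fst * y.fst * (x.snd - y.snd) * (x.fst - z.fst * y.fst)
      + x.fst * y.fst * (x.fst - y.fst) * (x.snd - z.fst * y.snd - z.snd * y.fst) := by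
  simp only [TrivSqZeroExt.snd_mul, TrivSqZeroExt.snd_sub, TrivSqZeroExt.fst_mul,
    TrivSqZeroExt.fst_sub, smul_eq_mul, MulOpposite.smul_eq_mul_unop, MulOpposite.unop_op]
  ring

/-- A derivation of `ℂ` (given by the homomorphism `τ`) which does not kill the cross-ratio of four
lines does not extend to the coordinate ring of the four lines. -/
theorem no_lift {l : ℂ} (h0 : l ≠ 0) (h1 : l ≠ 1) (τ : ℂ →+* DualNumber ℂ)
    (ψ : CoordRing l →+* DualNumber (CoordRing l)) (hψ : ∀ x, TrivSqZeroExt.fst (ψ x) = x)
    (hc : ∀ c : ℂ, TrivSqZeroExt.snd (ψ (algebraMap ℂ _ c)) =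
      algebraMap ℂ _ (TrivSqZeroExt.snd (τ c))) :
    TrivSqZeroExt.snd (τ l) = 0 := by
  set D := TrivSqZeroExt.snd (τ l) with hD
  let q : MvPolynomial (Fin 2) ℂ →+* CoordRing l := Ideal.Quotient.mk _
  obtain ⟨a, ha⟩ := Ideal.Quotient.mk_surjective (TrivSqZeroExt.snd (ψ (q (X 0))))
  obtain ⟨b, hb⟩ := Ideal.Quotient.mk_surjective (TrivSqZeroExt.snd (ψ (q (X 1))))
  have hC : TrivSqZeroExt.snd (ψ (q (C l))) = q (C D) := hc l
  have hF : q (quartic l) = 0 := Ideal.Quotient.eq_zero_iff_mem.2 (Ideal.mem_span_singleton_self _)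
  have hP : q (a * X 1 * (X 0 - X 1) * (X 0 - C l * X 1) + X 0 * b * (X 0 - X 1) * (X 0 - C l * X 1)
      + X 0 * X 1 * (a - b) * (X 0 - C l * X 1)
      + X 0 * X 1 * (X 0 - X 1) * (a - C l * b - C D * X 1)) = 0 := by
    have h : TrivSqZeroExt.snd (ψ (q (quartic l))) = 0 := by rw [hF, map_zero]; rfl
    have h2 : ψ (q (quartic l)) = ψ (q (X 0)) * ψ (q (X 1)) * (ψ (q (X 0)) - ψ (q (X 1))) *
        (ψ (q (X 0)) - ψ (q (C l)) * ψ (q (X 1))) := by
      simp only [quartic, map_mul, map_sub]
    rw [h2, snd_quartic, hψ, hψ, hψ, hC, ← ha, ← hb] at h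
    simp only [map_mul, map_sub, map_add]
    exact h
  obtain ⟨r, hr⟩ := Ideal.mem_span_singleton.1 (Ideal.Quotient.eq_zero_iff_mem.1 hP)
  -- evaluate along the lines
  have hev : ∀ α β : ℂ, α * β * (α - β) * (α - l * β) = 0 → ev α β (quartic l) = 0 := by
    intro α β h
    have : ev α β (quartic l) = Polynomial.C (α * β * (α - β) * (α - l * β)) * Polynomial.X ^ 4 := by
      simp only [quartic, map_mul, map_sub, ev_X0, ev_X1, ev_C]
      ring
    rw [this, h, map_zero, zero_mul]
  have key : ∀ α β : ℂ, α * β * (α - β) * (α - l * β) = 0 →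
      Polynomial.C (β * (α - β) * (α - l * β) + α * β * (α - l * β) + α * β * (α - β)) *
        ev α β a + Polynomial.C (α * (α - β) * (α - l * β) - α * β * (α - l * β)
          - l * (α * β * (α - β))) * ev α β b
        = Polynomial.C (D * β * (α * β * (α - β))) * Polynomial.X := by
    intro α β h
    have h2 := congrArg (ev α β) hr
    rw [map_mul, hev α β h, zero_mul] at h2
    simp only [map_add, map_mul, map_sub, ev_X0, ev_X1, ev_C] at h2
    have h3 : (Polynomial.C (β * (α - β) * (α - l * β) + α * β * (α - l * β) + α * β * (α - β)) *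
        ev α β a + Polynomial.C (α * (α - β) * (α - l * β) - α * β * (α - l * β)
          - l * (α * β * (α - β))) * ev α β b
        - Polynomial.C (D * β * (α * β * (α - β))) * Polynomial.X) * Polynomial.X ^ 3 = 0 := by
      rw [← h2]
      simp only [map_add, map_mul, map_sub]
      ring
    have h4 := (mul_eq_zero.1 h3).resolve_right (pow_ne_zero _ Polynomial.X_ne_zero)
    exact sub_eq_zero.1 h4
  have key' : ∀ α β : ℂ, α * β * (α - β) * (α - l * β) = 0 →
      (β * (α - β) * (α - l * β) + α * β * (α - l * β) + α * β * (α - β)) *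
        (α * coeff (Finsupp.single 0 1) a + β * coeff (Finsupp.single 1 1) a)
        + (α * (α - β) * (α - l * β) - α * β * (α - l * β) - l * (α * β * (α - β))) *
        (α * coeff (Finsupp.single 0 1) b + β * coeff (Finsupp.single 1 1) b)
        = D * β * (α * β * (α - β)) := by
    intro α β h
    have h2 := congrArg (fun z => Polynomial.coeff z 1) (key α β h)
    simp only [Polynomial.coeff_add, Polynomial.coeff_C_mul, coeff_ev, Polynomial.coeff_X_one,
      mul_one] at h2
    exact h2
  have e1 := key' 0 1 (by ring)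
  have e2 := key' 1 0 (by ring)
  have e3 := key' 1 1 (by ring)
  have e4 := key' l 1 (by ring)
  simp only [mul_zero, zero_mul, zero_sub, sub_zero, mul_one, one_mul, zero_add, add_zero,
    sub_self] at e1 e2 e3 e4
  have f1 : coeff (Finsupp.single 1 1) a = 0 := by
    have : l * coeff (Finsupp.single 1 1) a = 0 := by linear_combination e1
    exact (mul_eq_zero.1 this).resolve_left h0
  have f2 : coeff (Finsupp.single 0 1) b = 0 := by linear_combination e2
  have f3 : coeff (Finsupp.single 0 1) a = coeff (Finsupp.single 1 1) b := by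
    have : (1 - l) * (coeff (Finsupp.single 0 1) a - coeff (Finsupp.single 1 1) b) = 0 := by
      rw [f1, f2] at e3
      linear_combination e3
    exact sub_eq_zero.1 ((mul_eq_zero.1 this).resolve_left (sub_ne_zero.2 (Ne.symm h1)))
  rw [f1, f2, f3] at e4
  have f4 : l * (l - 1) * D = 0 := by linear_combination -e4
  exact (mul_eq_zero.1 f4).resolve_left (mul_ne_zero h0 (sub_ne_zero.2 h1))

end Pool.Agent.Helper2.MS
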