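import Mathlib

/-!
# Line bundles on schemes, given by gluing data

A line bundle on a scheme `X` is given by an open cover `U i` and functions `g i j` on the
intersections `U i ∩ U j` with `g i i = 1` and `g i j * g j k = g i k` (so they are units). The
sections over `W` are the families of functions `s i` on `W ∩ U i` with `s i = g i j * s j`.
-/

open AlgebraicGeometry CategoryTheory TopologicalSpace

namespace Pool.Agent.Helper2.MS

/-- Restriction of functions to a smaller open subset, as a ring homomorphism. -/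
def res {X : Scheme.{0}} {U V : X.Opens} (h : V ≤ U) : Γ(X, U) →+* Γ(X, V) :=
  (X.presheaf.map (homOfLE h).op).hom

/-- The restriction of the function `a` to a smaller open subset. -/
def rs {X : Scheme.{0}} {U V : X.Opens} (h : V ≤ U) (a : Γ(X, U)) : Γ(X, V) := res h a

lemma rs_eq {X : Scheme.{0}} {U V : X.Opens} (h : V ≤ U) (a : Γ(X, U)) : rs h a = res h a := rfl

/-- The pull-back of the function `a` along the morphism `f`. -/
def pb {X Y : Scheme.{0}} (f : X ⟶ Y) {U : Y.Opens} (a : Γ(Y, U)) : Γ(X, f ⁻¹ᵁ U) :=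
  (f.app U).hom a

lemma res_res {X : Scheme.{0}} {U V W : X.Opens} (h : V ≤ U) (h' : W ≤ V) (a : Γ(X, U)) :
    res h' (res h a) = res (h'.trans h) a := by
  simp only [res, ← CommRingCat.comp_apply, ← Functor.map_comp]
  rfl

lemma res_self {X : Scheme.{0}} {U : X.Opens} (h : U ≤ U) (a : Γ(X, U)) : res h a = a := by
  simp [res]

/-- Pull-back of functions commutes with restriction. -/
lemma app_res {X Y : Scheme.{0}} (f : X ⟶ Y) {U V : Y.Opens} (h : V ≤ U) (a : Γ(Y, U)) :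
    (f.app V).hom (res h a) = res (X := X) (U := f ⁻¹ᵁ U) (V := f ⁻¹ᵁ V) (fun _ hx => h hx)
      ((f.app U).hom a) := by
  have := f.naturality (homOfLE h).op
  have h2 := congrArg (fun g => g.hom a) this
  exact h2

/-- The cocycle condition for functions `g i j` on the open subsets `U i ∩ U j`: `g i i = 1`, and
`g i j * g j k = g i k` on `U i ∩ U j ∩ U k`. -/
structure IsCocycle {X : Scheme.{0}} {ι : Type} (U : ι → X.Opens) (g : ∀ i j, Γ(X, U i ⊓ U j)) :
    Prop where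
  self : ∀ i, g i i = 1
  mul : ∀ i j k, rs (V := U i ⊓ U j ⊓ U k) inf_le_left (g i j) *
      rs (V := U i ⊓ U j ⊓ U k) (le_inf (inf_le_left.trans inf_le_right) inf_le_right) (g j k) =
    rs (V := U i ⊓ U j ⊓ U k) (le_inf (inf_le_left.trans inf_le_left) inf_le_right) (g i k)

/-- A line bundle (invertible sheaf) on `X`: an open cover and transition functions. -/
structure LineBundle (X : Scheme.{0}) where
  /-- the index set of the cover -/
  ι : Type
  /-- the open subsets of the cover -/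
  U : ι → X.Opens
  covers : ∀ x : X, ∃ i, x ∈ U i
  /-- the transition functions -/
  g : ∀ i j, Γ(X, U i ⊓ U j)
  isCocycle : IsCocycle U g

namespace LineBundle

variable {X Y Z : Scheme.{0}}

lemma g_self (L : LineBundle X) (i : L.ι) : L.g i i = 1 := L.isCocycle.self i

lemma cocycle (L : LineBundle X) (i j k : L.ι) :
    res (V := L.U i ⊓ L.U j ⊓ L.U k) inf_le_left (L.g i j) *
      res (V := L.U i ⊓ L.U j ⊓ L.U k) (le_inf (inf_le_left.trans inf_le_right) inf_le_right)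
        (L.g j k) =
    res (V := L.U i ⊓ L.U j ⊓ L.U k) (le_inf (inf_le_left.trans inf_le_left) inf_le_right)
      (L.g i k) := L.isCocycle.mul i j k

/-- The transition function `g i j`, restricted to an open subset of `U i ∩ U j`. -/
def tr (L : LineBundle X) {W : X.Opens} {i j : L.ι} (hi : W ≤ L.U i) (hj : W ≤ L.U j) : Γ(X, W) :=
  rs (le_inf hi hj) (L.g i j)

lemma tr_eq (L : LineBundle X) {W : X.Opens} {i j : L.ι} (hi : W ≤ L.U i) (hj : W ≤ L.U j) :
    L.tr hi hj = res (le_inf hi hj) (L.g i j) := rfl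

lemma res_tr (L : LineBundle X) {W W' : X.Opens} {i j : L.ι} (hi : W ≤ L.U i) (hj : W ≤ L.U j)
    (h : W' ≤ W) : res h (L.tr hi hj) = L.tr (h.trans hi) (h.trans hj) := by
  simp [tr_eq, res_res]

lemma tr_self (L : LineBundle X) {W : X.Opens} {i : L.ι} (hi hi' : W ≤ L.U i) :
    L.tr hi hi' = 1 := by
  simp [tr_eq, L.g_self]

lemma tr_mul (L : LineBundle X) {W : X.Opens} {i j k : L.ι} (hi : W ≤ L.U i) (hj : W ≤ L.U j)
    (hk : W ≤ L.U k) : L.tr hi hj * L.tr hj hk = L.tr hi hk := by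
  have h := congrArg (res (le_inf (le_inf hi hj) hk)) (L.cocycle i j k)
  rw [map_mul, res_res, res_res, res_res] at h
  exact h

lemma isCocycle_one (X : Scheme.{0}) : IsCocycle (X := X) (ι := Unit) (fun _ => ⊤) (fun _ _ => 1) :=
  ⟨fun _ => rfl, fun _ _ _ => by simp [rs_eq]⟩

/-- The trivial line bundle. -/
def trivial (X : Scheme.{0}) : LineBundle X where
  ι := Unit
  U := fun _ => ⊤
  covers := fun _ => ⟨(), Set.mem_univ _⟩
  g := fun _ _ => 1
  isCocycle := isCocycle_one X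

lemma isCocycle_pb (L : LineBundle Y) (f : X ⟶ Y) :
    IsCocycle (fun i => f ⁻¹ᵁ (L.U i)) (fun i j => pb f (L.g i j)) where
  self := fun i => by rw [L.g_self]; exact map_one _
  mul := fun i j k => by
    have h := congrArg (f.app (L.U i ⊓ L.U j ⊓ L.U k)).hom (L.cocycle i j k)
    rw [map_mul, app_res, app_res, app_res] at h
    exact h

/-- The pull-back `f^* L` of a line bundle. -/
def pullback (L : LineBundle Y) (f : X ⟶ Y) : LineBundle X where
  ι := L.ι
  U := fun i => f ⁻¹ᵁ (L.U i)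
  covers := fun x => L.covers (f x)
  g := fun i j => pb f (L.g i j)
  isCocycle := L.isCocycle_pb f

/-- The product of the transition functions of `L` and `M`, on an open subset on which they are
defined. -/
def trMul (L M : LineBundle X) {W : X.Opens} {i i' : L.ι} {j j' : M.ι}
    (h : W ≤ L.U i ⊓ M.U j) (h' : W ≤ L.U i' ⊓ M.U j') : Γ(X, W) :=
  L.tr (h.trans inf_le_left) (h'.trans inf_le_left) *
    M.tr (h.trans inf_le_right) (h'.trans inf_le_right)

lemma covers_tensor (L M : LineBundle X) (x : X) : ∃ p : L.ι × M.ι, x ∈ L.U p.1 ⊓ M.U p.2 := by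
  obtain ⟨i, hi⟩ := L.covers x
  obtain ⟨j, hj⟩ := M.covers x
  exact ⟨(i, j), hi, hj⟩

lemma isCocycle_trMul (L M : LineBundle X) :
    IsCocycle (ι := L.ι × M.ι) (fun p => L.U p.1 ⊓ M.U p.2)
      (fun _ _ => L.trMul M inf_le_left inf_le_right) where
  self := fun p => by rw [trMul, L.tr_self, M.tr_self, mul_one]
  mul := fun p q r => by
    simp only [rs_eq, trMul, map_mul, res_tr]
    rw [mul_mul_mul_comm, L.tr_mul, M.tr_mul]

/-- The tensor product of two line bundles. -/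
def tensor (L M : LineBundle X) : LineBundle X where
  ι := L.ι × M.ι
  U := fun p => L.U p.1 ⊓ M.U p.2
  covers := L.covers_tensor M
  g := fun _ _ => L.trMul M inf_le_left inf_le_right
  isCocycle := L.isCocycle_trMul M

/-- Isomorphism of line bundles: after a common refinement of the covers, the transition functions
differ by a coboundary of units. -/
def Iso (L M : LineBundle X) : Prop :=
  ∃ (κ : Type) (V : κ → X.Opens) (_ : ∀ x : X, ∃ k, x ∈ V k) (a : κ → L.ι) (b : κ → M.ι)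
    (ha : ∀ k, V k ≤ L.U (a k)) (hb : ∀ k, V k ≤ M.U (b k)) (u : ∀ k, Γ(X, V k)ˣ),
    ∀ k l, L.tr (W := V k ⊓ V l) (inf_le_left.trans (ha k)) (inf_le_right.trans (ha l)) *
        rs inf_le_right (u l : Γ(X, V l)) =
      rs inf_le_left (u k : Γ(X, V k)) *
        M.tr (W := V k ⊓ V l) (inf_le_left.trans (hb k)) (inf_le_right.trans (hb l))

lemma Iso.refl (L : LineBundle X) : L.Iso L :=
  ⟨L.ι, L.U, L.covers, id, id, fun _ => le_rfl, fun _ => le_rfl, fun _ => 1, fun k l => by simp [rs_eq]⟩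

lemma Iso.symm {L M : LineBundle X} (h : L.Iso M) : M.Iso L := by
  obtain ⟨κ, V, hV, a, b, ha, hb, u, hu⟩ := h
  simp only [rs_eq] at hu
  refine ⟨κ, V, hV, b, a, hb, ha, fun k => (u k)⁻¹, fun k l => ?_⟩
  simp only [rs_eq]
  have h := hu k l
  have hk : res (V := V k ⊓ V l) inf_le_left (((u k)⁻¹ : Γ(X, V k)ˣ) : Γ(X, V k)) *
      res inf_le_left (u k : Γ(X, V k)) = 1 := by
    rw [← map_mul, Units.inv_mul, map_one]
  have hl : res (V := V k ⊓ V l) inf_le_right (((u l)⁻¹ : Γ(X, V l)ˣ) : Γ(X, V l)) *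
      res inf_le_right (u l : Γ(X, V l)) = 1 := by
    rw [← map_mul, Units.inv_mul, map_one]
  calc _ = (res (V := V k ⊓ V l) inf_le_left (((u k)⁻¹ : Γ(X, V k)ˣ) : Γ(X, V k)) *
      res inf_le_left (u k : Γ(X, V k))) * (M.tr (W := V k ⊓ V l) _ _ *
        res (V := V k ⊓ V l) inf_le_right (((u l)⁻¹ : Γ(X, V l)ˣ) : Γ(X, V l))) := by
        rw [hk, one_mul]
    _ = res (V := V k ⊓ V l) inf_le_left (((u k)⁻¹ : Γ(X, V k)ˣ) : Γ(X, V k)) *
      (res inf_le_left (u k : Γ(X, V k)) * M.tr (W := V k ⊓ V l) _ _) *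
        res (V := V k ⊓ V l) inf_le_right (((u l)⁻¹ : Γ(X, V l)ˣ) : Γ(X, V l)) := by ring
    _ = res (V := V k ⊓ V l) inf_le_left (((u k)⁻¹ : Γ(X, V k)ˣ) : Γ(X, V k)) *
      L.tr (W := V k ⊓ V l) _ _ * (res (V := V k ⊓ V l) inf_le_right
        (((u l)⁻¹ : Γ(X, V l)ˣ) : Γ(X, V l)) * res inf_le_right (u l : Γ(X, V l))) := by
        rw [← h]; ring
    _ = _ := by rw [hl, mul_one]

lemma Iso.trans {L M N : LineBundle X} (h : L.Iso M) (h' : M.Iso N) : L.Iso N := by
  obtain ⟨κ, V, hV, a, b, ha, hb, u, hu⟩ := h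
  simp only [rs_eq] at hu
  obtain ⟨κ', W, hW, c, d, hc, hd, v, hv⟩ := h'
  simp only [rs_eq] at hv
  have hunit : ∀ p : κ × κ', IsUnit (res (V := V p.1 ⊓ W p.2) inf_le_left (u p.1 : Γ(X, V p.1)) *
      M.tr (W := V p.1 ⊓ W p.2) (inf_le_left.trans (hb p.1)) (inf_le_right.trans (hc p.2)) *
      res inf_le_right (v p.2 : Γ(X, W p.2))) := by
    intro p
    refine IsUnit.mul (IsUnit.mul ((u p.1).isUnit.map _) ?_) ((v p.2).isUnit.map _)
    refine IsUnit.of_mul_eq_one (M.tr (W := V p.1 ⊓ W p.2) (inf_le_right.trans (hc p.2))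
      (inf_le_left.trans (hb p.1))) ?_
    rw [M.tr_mul, M.tr_self]
  refine ⟨κ × κ', fun p => V p.1 ⊓ W p.2, fun x => ?_, fun p => a p.1, fun p => d p.2,
    fun p => inf_le_left.trans (ha p.1), fun p => inf_le_right.trans (hd p.2),
    fun p => (hunit p).unit, fun p q => ?_⟩
  · obtain ⟨i, hi⟩ := hV x
    obtain ⟨j, hj⟩ := hW x
    exact ⟨(i, j), hi, hj⟩
  · have h1 := congrArg (res (V := V p.1 ⊓ W p.2 ⊓ (V q.1 ⊓ W q.2))
      (le_inf (inf_le_left.trans inf_le_left) (inf_le_right.trans inf_le_left))) (hu p.1 q.1)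
    have h2 := congrArg (res (V := V p.1 ⊓ W p.2 ⊓ (V q.1 ⊓ W q.2))
      (le_inf (inf_le_left.trans inf_le_right) (inf_le_right.trans inf_le_right))) (hv p.2 q.2)
    simp only [map_mul, res_tr, res_res] at h1 h2
    simp only [rs_eq, IsUnit.unit_spec, map_mul, res_tr, res_res]
    have hV' : ∀ (hp : V p.1 ⊓ W p.2 ⊓ (V q.1 ⊓ W q.2) ≤ M.U (b p.1))
        (hq : V p.1 ⊓ W p.2 ⊓ (V q.1 ⊓ W q.2) ≤ M.U (b q.1))
        (hp' : V p.1 ⊓ W p.2 ⊓ (V q.1 ⊓ W q.2) ≤ M.U (c p.2))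
        (hq' : V p.1 ⊓ W p.2 ⊓ (V q.1 ⊓ W q.2) ≤ M.U (c q.2)),
        M.tr hp hq * M.tr hq hq' = M.tr hp hp' * M.tr hp' hq' := by
      intro hp hq hp' hq'
      rw [M.tr_mul, M.tr_mul]
    rw [← mul_assoc, ← mul_assoc, h1, mul_assoc (res _ _), hV' _ _
      ((inf_le_left.trans inf_le_right).trans (hc p.2)) _, mul_assoc, mul_assoc, h2]
    ring

lemma tr_pullback (L : LineBundle Y) (f : X ⟶ Y) {i j : L.ι} {W : X.Opens}
    (hi : W ≤ (L.pullback f).U i) (hj : W ≤ (L.pullback f).U j) :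
    (L.pullback f).tr hi hj = res (le_inf hi hj) ((f.app (L.U i ⊓ L.U j)).hom (L.g i j)) := rfl

/-- `app` of `tr`. -/
lemma app_tr (L : LineBundle Y) (f : X ⟶ Y) {i j : L.ι} {W : Y.Opens}
    (hi : W ≤ L.U i) (hj : W ≤ L.U j) :
    (f.app W).hom (L.tr hi hj) = (L.pullback f).tr (i := i) (j := j) (W := f ⁻¹ᵁ W)
      (fun _ hx => hi hx) (fun _ hx => hj hx) := by
  rw [tr_eq, app_res]
  rfl

lemma Iso.pullback {L M : LineBundle Y} (h : L.Iso M) (f : X ⟶ Y) :
    (L.pullback f).Iso (M.pullback f) := by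
  obtain ⟨κ, V, hV, a, b, ha, hb, u, hu⟩ := h
  simp only [rs_eq] at hu
  refine ⟨κ, fun k => f ⁻¹ᵁ (V k), fun x => hV (f x), a, b, fun k _ hx => ha k hx,
    fun k _ hx => hb k hx, fun k => Units.map (f.app (V k)).hom.toMonoidHom (u k), fun k l => ?_⟩
  have h := congrArg (f.app (V k ⊓ V l)).hom (hu k l)
  rw [map_mul, map_mul, app_res, app_res, app_tr, app_tr] at h
  exact h

/-- `(f ≫ g)^* L` is `f^* (g^* L)`. -/
lemma pullback_comp (L : LineBundle Z) (f : X ⟶ Y) (g : Y ⟶ Z) :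
    (L.pullback (f ≫ g)).Iso ((L.pullback g).pullback f) := by
  refine ⟨L.ι, fun i => f ⁻¹ᵁ (g ⁻¹ᵁ (L.U i)), fun x => L.covers (g (f x)), id, id,
    fun _ => le_rfl, fun _ => le_rfl, fun _ => 1, fun k l => ?_⟩
  simp only [rs_eq, Units.val_one, map_one, mul_one, one_mul]
  have h : ((f ≫ g).app (L.U k ⊓ L.U l)).hom (L.g k l) =
      (f.app (g ⁻¹ᵁ (L.U k ⊓ L.U l))).hom ((g.app (L.U k ⊓ L.U l)).hom (L.g k l)) := by
    rw [Scheme.Hom.comp_app]; rfl
  exact congrArg (res (X := X) _) h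

lemma pullback_id (L : LineBundle X) : (L.pullback (𝟙 X)).Iso L := by
  refine ⟨L.ι, L.U, L.covers, id, id, fun _ => le_rfl, fun _ => le_rfl, fun _ => 1, fun k l => ?_⟩
  simp only [rs_eq, Units.val_one, map_one, mul_one, one_mul]
  have h : ((𝟙 X : X ⟶ X).app (L.U k ⊓ L.U l)).hom (L.g k l) = L.g k l := by
    rw [Scheme.Hom.id_app]; rfl
  exact congrArg (res (X := X) _) h

lemma tr_tensor (L M : LineBundle X) {W : X.Opens} {i i' : L.ι} {j j' : M.ι}
    (h : W ≤ L.U i ⊓ M.U j) (h' : W ≤ L.U i' ⊓ M.U j') :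
    (L.tensor M).tr (i := (i, j)) (j := (i', j')) h h' =
      L.tr (h.trans inf_le_left) (h'.trans inf_le_left) *
        M.tr (h.trans inf_le_right) (h'.trans inf_le_right) := by
  exact (map_mul (res (X := X) (U := L.U i ⊓ M.U j ⊓ (L.U i' ⊓ M.U j')) (V := W) (le_inf h h'))
    (L.tr (inf_le_left.trans inf_le_left) (inf_le_right.trans inf_le_left))
    (M.tr (inf_le_left.trans inf_le_right) (inf_le_right.trans inf_le_right))).trans
    (congrArg₂ _ (L.res_tr _ _ _) (M.res_tr _ _ _))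

lemma pullback_tensor (L M : LineBundle Y) (f : X ⟶ Y) :
    ((L.tensor M).pullback f).Iso ((L.pullback f).tensor (M.pullback f)) := by
  refine ⟨L.ι × M.ι, fun p => f ⁻¹ᵁ (L.U p.1) ⊓ f ⁻¹ᵁ (M.U p.2), fun x => (L.tensor M).covers (f x),
    id, id, fun _ => le_rfl, fun _ => le_rfl, fun _ => 1, fun k l => ?_⟩
  simp only [rs_eq, Units.val_one, map_one, mul_one, one_mul]
  obtain ⟨i, j⟩ := k
  obtain ⟨i', j'⟩ := l
  have h1 := (L.tensor M).app_tr f (i := (i, j)) (j := (i', j'))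
    (W := L.U i ⊓ M.U j ⊓ (L.U i' ⊓ M.U j')) inf_le_left inf_le_right
  rw [tr_tensor, map_mul, app_tr, app_tr] at h1
  refine Eq.trans h1.symm ?_
  exact ((L.pullback f).tr_tensor (M.pullback f) (i := i) (j := j) (i' := i') (j' := j')
    (W := f ⁻¹ᵁ (L.U i) ⊓ f ⁻¹ᵁ (M.U j) ⊓ (f ⁻¹ᵁ (L.U i') ⊓ f ⁻¹ᵁ (M.U j')))
    inf_le_left inf_le_right).symm

lemma pullback_trivial (f : X ⟶ Y) : ((trivial Y).pullback f).Iso (trivial X) := by
  refine ⟨Unit, fun _ => ⊤, fun x => ⟨(), Set.mem_univ _⟩, id, id, fun _ => le_top,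
    fun _ => le_rfl, fun _ => 1, fun k l => ?_⟩
  simp only [rs_eq, Units.val_one, map_one, mul_one, one_mul]
  have h : ((f.app (⊤ ⊓ ⊤)).hom (1 : Γ(Y, ⊤ ⊓ ⊤))) = 1 := map_one _
  have h2 := congrArg (res (X := X) (V := ⊤ ⊓ ⊤) (U := f ⁻¹ᵁ (⊤ ⊓ ⊤)) (fun _ _ => ⟨True.intro, True.intro⟩)) h
  refine Eq.trans h2 ?_
  rw [map_one]
  exact (map_one (res (X := X) (V := ⊤ ⊓ ⊤) (U := ⊤ ⊓ ⊤) le_rfl)).symm

lemma tensor_trivial (L : LineBundle X) : (L.tensor (trivial X)).Iso L := by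
  refine ⟨L.ι, L.U, L.covers, fun i => (i, ()), id, fun i => le_inf le_rfl le_top,
    fun _ => le_rfl, fun _ => 1, fun k l => ?_⟩
  simp only [rs_eq, Units.val_one, map_one, mul_one, one_mul]
  refine (L.tr_tensor (trivial X) (i := k) (i' := l) (j := ()) (j' := ()) (W := L.U k ⊓ L.U l)
    (le_inf inf_le_left le_top) (le_inf inf_le_right le_top)).trans ?_
  have : (trivial X).tr (i := ()) (j := ()) (W := L.U k ⊓ L.U l) le_top le_top = 1 :=
    (trivial X).tr_self _ _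
  exact (congrArg _ this).trans (mul_one _)

lemma Iso.tensor {L L' M M' : LineBundle X} (h : L.Iso L') (h' : M.Iso M') :
    (L.tensor M).Iso (L'.tensor M') := by
  obtain ⟨κ, V, hV, a, b, ha, hb, u, hu⟩ := h
  simp only [rs_eq] at hu
  obtain ⟨κ', W, hW, c, d, hc, hd, v, hv⟩ := h'
  simp only [rs_eq] at hv
  refine ⟨κ × κ', fun p => V p.1 ⊓ W p.2, fun x => ?_, fun p => (a p.1, c p.2),
    fun p => (b p.1, d p.2), fun p => inf_le_inf (ha p.1) (hc p.2),
    fun p => inf_le_inf (hb p.1) (hd p.2),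
    fun p => Units.map (res inf_le_left).toMonoidHom (u p.1) *
      Units.map (res inf_le_right).toMonoidHom (v p.2), fun p q => ?_⟩
  · obtain ⟨i, hi⟩ := hV x
    obtain ⟨j, hj⟩ := hW x
    exact ⟨(i, j), hi, hj⟩
  · have h1 := congrArg (res (V := V p.1 ⊓ W p.2 ⊓ (V q.1 ⊓ W q.2))
      (le_inf (inf_le_left.trans inf_le_left) (inf_le_right.trans inf_le_left))) (hu p.1 q.1)
    have h2 := congrArg (res (V := V p.1 ⊓ W p.2 ⊓ (V q.1 ⊓ W q.2))
      (le_inf (inf_le_left.trans inf_le_right) (inf_le_right.trans inf_le_right))) (hv p.2 q.2)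
    simp only [map_mul, res_tr, res_res] at h1 h2
    have e1 := L.tr_tensor M (i := a p.1) (j := c p.2) (i' := a q.1) (j' := c q.2)
      (W := V p.1 ⊓ W p.2 ⊓ (V q.1 ⊓ W q.2)) (inf_le_left.trans (inf_le_inf (ha p.1) (hc p.2)))
      (inf_le_right.trans (inf_le_inf (ha q.1) (hc q.2)))
    have e2 := L'.tr_tensor M' (i := b p.1) (j := d p.2) (i' := b q.1) (j' := d q.2)
      (W := V p.1 ⊓ W p.2 ⊓ (V q.1 ⊓ W q.2)) (inf_le_left.trans (inf_le_inf (hb p.1) (hd p.2)))
      (inf_le_right.trans (inf_le_inf (hb q.1) (hd q.2)))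
    simp only [rs_eq, Units.val_mul, Units.coe_map, RingHom.toMonoidHom_eq_coe,
      MonoidHom.coe_coe, map_mul, res_res]
    refine (congrArg (fun z => z * _) e1).trans (Eq.trans ?_ (congrArg (fun z => _ * z) e2).symm)
    rw [mul_mul_mul_comm, h1, h2]
    ring

lemma tensor_assoc (L M N : LineBundle X) :
    ((L.tensor M).tensor N).Iso (L.tensor (M.tensor N)) := by
  refine ⟨L.ι × M.ι × N.ι, fun p => L.U p.1 ⊓ (M.U p.2.1 ⊓ N.U p.2.2), fun x => ?_,
    fun p => ((p.1, p.2.1), p.2.2), fun p => (p.1, (p.2.1, p.2.2)),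
    fun p => le_inf (le_inf inf_le_left (inf_le_right.trans inf_le_left))
      (inf_le_right.trans inf_le_right), fun p => le_rfl, fun _ => 1, fun k l => ?_⟩
  · obtain ⟨i, hi⟩ := L.covers x
    obtain ⟨j, hj⟩ := M.covers x
    obtain ⟨k, hk⟩ := N.covers x
    exact ⟨(i, j, k), hi, hj, hk⟩
  · simp only [rs_eq, Units.val_one, map_one, mul_one, one_mul]
    obtain ⟨i, j, k⟩ := k
    obtain ⟨i', j', k'⟩ := l
    have hW : L.U i ⊓ (M.U j ⊓ N.U k) ⊓ (L.U i' ⊓ (M.U j' ⊓ N.U k')) ≤ L.U i ⊓ M.U j ⊓ N.U k :=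
      inf_le_left.trans (le_inf (le_inf inf_le_left (inf_le_right.trans inf_le_left))
        (inf_le_right.trans inf_le_right))
    have hW' : L.U i ⊓ (M.U j ⊓ N.U k) ⊓ (L.U i' ⊓ (M.U j' ⊓ N.U k')) ≤
        L.U i' ⊓ M.U j' ⊓ N.U k' :=
      inf_le_right.trans (le_inf (le_inf inf_le_left (inf_le_right.trans inf_le_left))
        (inf_le_right.trans inf_le_right))
    have e1 := (L.tensor M).tr_tensor N (i := (i, j)) (j := k) (i' := (i', j')) (j' := k') hW hW'
    have e2 := L.tr_tensor M (i := i) (j := j) (i' := i') (j' := j') (hW.trans inf_le_left)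
      (hW'.trans inf_le_left)
    have e3 := L.tr_tensor (M.tensor N) (i := i) (j := (j, k)) (i' := i') (j' := (j', k'))
      (W := L.U i ⊓ (M.U j ⊓ N.U k) ⊓ (L.U i' ⊓ (M.U j' ⊓ N.U k'))) inf_le_left inf_le_right
    have e4 := M.tr_tensor N (i := j) (j := k) (i' := j') (j' := k')
      (W := L.U i ⊓ (M.U j ⊓ N.U k) ⊓ (L.U i' ⊓ (M.U j' ⊓ N.U k')))
      (inf_le_left.trans inf_le_right) (inf_le_right.trans inf_le_right)
    refine e1.trans (Eq.trans ?_ e3.symm)
    refine (congrArg (fun z => z * _) e2).trans (Eq.trans ?_ (congrArg (fun z => _ * z) e4).symm)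
    exact mul_assoc _ _ _

end LineBundle

end Pool.Agent.Helper2.MS
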