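import Mathlib

/-!
# Derivations of `ℂ`, as ring homomorphisms to the dual numbers
-/

open IntermediateField

noncomputable section

namespace Pool.Agent.Helper2.MS

open scoped IntermediateField.algebraAdjoinAdjoin in
/-- For a transcendental number `l` there is a derivation of `ℂ` with the value `1` at `l`. -/
theorem exists_tau {l : ℂ} (hl : Transcendental ℚ l) :
    ∃ τ : ℂ →+* DualNumber ℂ, (∀ c, TrivSqZeroExt.fst (τ c) = c) ∧
      TrivSqZeroExt.snd (τ l) = 1 := by
  let v : Unit → ℂ := fun _ => l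
  have hv : AlgebraicIndependent ℚ v := by
    have := (algebraicIndependent_unique_type_iff (R := ℚ) (x := v)).2 hl
    exact this
  let R : Subalgebra ℚ ℂ := Algebra.adjoin ℚ (Set.range v)
  let K : IntermediateField ℚ ℂ := IntermediateField.adjoin ℚ (Set.range v)
  have h1 : Algebra.FormallySmooth R K := .of_isLocalization (nonZeroDivisors _)
  obtain ⟨s, hs⟩ := exists_isTranscendenceBasis K ℂ
  have h2 : Algebra.IsAlgebraic (IntermediateField.adjoin K (Set.range ((↑) : s → ℂ))) ℂ := by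
    have := hs.isAlgebraic_field
    exact this
  have h3 : Algebra.FormallySmooth K ℂ :=
    Algebra.FormallySmooth.of_algebraicIndependent_of_isSeparable hs.1
  have h4 : Algebra.FormallySmooth R ℂ := .comp _ K _
  let e : R →+* DualNumber ℂ :=
    ((MvPolynomial.aeval (R := ℚ) (fun _ : Unit => (TrivSqZeroExt.inl l + TrivSqZeroExt.inr 1 :
      DualNumber ℂ))).comp hv.aevalEquiv.symm.toAlgHom).toRingHom
  let _ : Algebra R (DualNumber ℂ) := e.toAlgebra
  have he : ∀ r : R, TrivSqZeroExt.fst (e r) = (r : ℂ) := by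
    intro r
    obtain ⟨p, rfl⟩ := hv.aevalEquiv.surjective r
    have h5 : e (hv.aevalEquiv p) = MvPolynomial.aeval (R := ℚ) (fun _ : Unit =>
        (TrivSqZeroExt.inl l + TrivSqZeroExt.inr 1 : DualNumber ℂ)) p := by
      simp [e]
    rw [h5]
    have h6 : (TrivSqZeroExt.fstHom ℚ ℂ ℂ).comp (MvPolynomial.aeval (R := ℚ) (fun _ : Unit =>
        (TrivSqZeroExt.inl l + TrivSqZeroExt.inr 1 : DualNumber ℂ))) = MvPolynomial.aeval v := by
      ext i
      simp [v]
    have h7 := congrArg (fun g => g p) h6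
    simp only [AlgHom.comp_apply] at h7
    exact h7.trans (hv.algebraMap_aevalEquiv p).symm
  let g : DualNumber ℂ →ₐ[R] ℂ :=
    { TrivSqZeroExt.fstHom ℂ ℂ ℂ with
      commutes' := fun r => he r }
  have hg : Function.Surjective g := fun c => ⟨TrivSqZeroExt.inl c, rfl⟩
  have hg' : IsNilpotent (RingHom.ker (g : DualNumber ℂ →+* ℂ)) := by
    exact ⟨2, TrivSqZeroExt.kerIdeal_sq ℂ ℂ⟩
  let τ := Algebra.FormallySmooth.liftOfSurjective (R := R) (AlgHom.id R ℂ) g hg hg'
  have hτ : ∀ c, TrivSqZeroExt.fst (τ c) = c := fun c =>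
    Algebra.FormallySmooth.liftOfSurjective_apply (AlgHom.id R ℂ) g hg hg' c
  refine ⟨τ.toRingHom, hτ, ?_⟩
  have hl' : l ∈ R := Algebra.subset_adjoin ⟨(), rfl⟩
  have h8 : τ l = e ⟨l, hl'⟩ := τ.commutes ⟨l, hl'⟩
  have h9 : hv.aevalEquiv.symm ⟨l, hl'⟩ = MvPolynomial.X () := by
    rw [AlgEquiv.symm_apply_eq]
    apply Subtype.ext
    have := hv.algebraMap_aevalEquiv (MvPolynomial.X ())
    rw [MvPolynomial.aeval_X] at this
    exact this.symm
  have h10 : e ⟨l, hl'⟩ = TrivSqZeroExt.inl l + TrivSqZeroExt.inr 1 := by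
    simp [e, h9]
  change TrivSqZeroExt.snd (τ l) = 1
  rw [h8, h10]
  simp

end Pool.Agent.Helper2.MS
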