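import Pool.Agent.Helper2.MS.Twist
import Pool.Agent.Helper2.MS.Algebra
import Pool.Agent.Helper2.MS.Tau

/-!
# Schemes which are moduli stacks: all derivations of `ℂ` lift
-/

open AlgebraicGeometry CategoryTheory TopologicalSpace Limits

noncomputable section

namespace Pool.Agent.Helper2.MS

/-- The spectrum of a `ℂ`-algebra, as a scheme over `ℂ`. -/
def SpecOver (A : Type) [CommRing A] [Algebra ℂ A] : Over (Spec (.of ℂ)) :=
  Over.mk (Spec.map (CommRingCat.ofHom (algebraMap ℂ A)))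

/-- The inclusion of `A` in `A[ε]`. -/
def inl' (A : Type) [CommRing A] : A →+* DualNumber A := TrivSqZeroExt.inlHom A A

/-- The projection of `A[ε]` to `A`. -/
def fst' (A : Type) [CommRing A] : DualNumber A →+* A :=
  (TrivSqZeroExt.fstHom A A A).toRingHom

/-- The terminal object of the category of schemes over `Z`. -/
def top (Z : Over (Spec (.of ℂ))) (hZ : LocallyOfFiniteType Z.hom) : SchemesOver Z :=
  ⟨Over.mk (𝟙 Z), hZ⟩

lemma isTerminal_top (Z : Over (Spec (.of ℂ))) (hZ : LocallyOfFiniteType Z.hom) :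
    Nonempty (IsTerminal (top Z hZ)) := by
  have h1 : IsTerminal (Over.mk (𝟙 Z)) := Over.mkIdTerminal
  refine ⟨IsTerminal.ofUniqueHom (fun T => ⟨h1.from T.obj⟩) ?_⟩
  intro T m
  exact ObjectProperty.hom_ext _ (h1.hom_ext _ _)

/-- If the moduli stack has a terminal object with base `Spec A` then every derivation of `ℂ` (given
by `τ`) extends to a derivation of `A` (given by `ψ`). -/
theorem exists_lift_of_isTerminal (𝒞 : PolClass) (A : Type) [CommRing A] [Algebra ℂ A]
    [Algebra.FiniteType ℂ A] (ξ : ModuliStack 𝒞) (hξ : IsTerminal ξ)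
    (a : ξ.S.left ⟶ Spec (.of A)) (b : Spec (.of A) ⟶ ξ.S.left) (hab : a ≫ b = 𝟙 _)
    (hba : b ≫ a = 𝟙 _) (ha : a ≫ Spec.map (CommRingCat.ofHom (algebraMap ℂ A)) = ξ.S.hom)
    (τ : ℂ →+* DualNumber ℂ) (hτ : ∀ c, TrivSqZeroExt.fst (τ c) = c) :
    ∃ ψ : A →+* DualNumber A, (∀ a, TrivSqZeroExt.fst (ψ a) = a) ∧
      ∀ c, ψ (algebraMap ℂ A c) = twist τ hτ A c := by
  -- the twisted thickening
  let B : CommRingCat.{0} := .of (DualNumber A)
  obtain ⟨p₀, hp₀⟩ : ∃ p₀ : Spec B ⟶ Spec (.of A), p₀ = Spec.map (CommRingCat.ofHom (inl' A)) :=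
    ⟨_, rfl⟩
  obtain ⟨i₀, hi₀'⟩ : ∃ i₀ : Spec (.of A) ⟶ Spec B, i₀ = Spec.map (CommRingCat.ofHom (fst' A)) :=
    ⟨_, rfl⟩
  have hi₀ : i₀ ≫ p₀ = 𝟙 _ := by
    rw [hi₀', hp₀, ← Spec.map_comp, ← Spec.map_id]
    rfl
  have hb : b ≫ ξ.S.hom = Spec.map (CommRingCat.ofHom (algebraMap ℂ A)) := by
    rw [← ha, reassoc_of% hba]
  obtain ⟨p, hpdef⟩ : ∃ p : Spec B ⟶ ξ.S.left, p = p₀ ≫ b := ⟨_, rfl⟩
  obtain ⟨i, hidef⟩ : ∃ i : ξ.S.left ⟶ Spec B, i = a ≫ i₀ := ⟨_, rfl⟩
  have hip : i ≫ p = 𝟙 _ := by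
    rw [hidef, hpdef, Category.assoc, reassoc_of% hi₀, hab]
  let θ : Spec B ⟶ Spec (.of ℂ) := Spec.map (CommRingCat.ofHom (twist τ hτ A))
  let SD : Over (Spec (.of ℂ)) := Over.mk θ
  have hiθ : i ≫ θ = ξ.S.hom := by
    have h1 : i₀ ≫ θ = Spec.map (CommRingCat.ofHom (algebraMap ℂ A)) := by
      rw [hi₀', ← Spec.map_comp]
      congr 1
      ext c
      exact fst_twist τ hτ A c
    rw [hidef, Category.assoc, h1, ha]
  -- the twisted family
  have haff : IsAffine ξ.S.left := by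
    have : IsIso a := ⟨b, hab, hba⟩
    exact .of_isIso a
  have hp : IsAffineHom p := inferInstance
  have sq : IsPullback (pullback.fst ξ.fam.f p) (pullback.snd ξ.fam.f p) ξ.fam.f p :=
    IsPullback.of_hasPullback _ _
  have hfib : ∀ t : Spec (.of ℂ) ⟶ Spec B, t ≫ θ = 𝟙 _ → (t ≫ p) ≫ ξ.S.hom = 𝟙 _ := by
    intro t ht
    obtain ⟨t', rfl⟩ := Spec.map_surjective t
    have h1 : ∀ c : ℂ, t'.hom (twist τ hτ A c) = c := by
      rw [← Spec.map_comp, ← Spec.map_id] at ht
      intro c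
      exact congrArg (fun g => g.hom c) (Spec.map_injective ht)
    have h2 : ∀ x : A, t'.hom (TrivSqZeroExt.inr x) = 0 := by
      intro x
      have h3 : t'.hom (TrivSqZeroExt.inr x) * t'.hom (TrivSqZeroExt.inr x) = 0 := by
        rw [← map_mul, TrivSqZeroExt.inr_mul_inr, map_zero]
      exact mul_self_eq_zero.1 h3
    have h4 : ∀ c : ℂ, t'.hom (TrivSqZeroExt.inl (algebraMap ℂ A c)) = c := by
      intro c
      have h5 := h1 c
      have h6 : twist τ hτ A c = TrivSqZeroExt.inl (algebraMap ℂ A c) +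
        TrivSqZeroExt.inr (algebraMap ℂ A (TrivSqZeroExt.snd (τ c))) := rfl
      rw [h6, map_add, h2, add_zero] at h5
      exact h5
    rw [hpdef, Category.assoc, Category.assoc, hb, hp₀, ← Spec.map_comp, ← Spec.map_comp,
      ← Spec.map_id]
    congr 1
    ext c
    exact h4 c
  let fam' : Family (Spec B) :=
    { X := pullback ξ.fam.f p
      f := pullback.snd ξ.fam.f p
      L := ξ.fam.L.pullback (pullback.fst ξ.fam.f p)
      smooth := MorphismProperty.of_isPullback sq ξ.fam.smooth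
      proper := MorphismProperty.of_isPullback sq ξ.fam.proper
      ample := ξ.fam.ample.baseChange hp sq }
  let η : ModuliStack 𝒞 :=
    { S := SD
      locallyOfFiniteType := by
        change LocallyOfFiniteType (Spec.map (CommRingCat.ofHom (twist τ hτ A)))
        rw [HasRingHomProperty.Spec_iff (P := @LocallyOfFiniteType)]
        exact finiteType_twist τ hτ A
      fam := fam'
      fibres := fun t ht F a' b' hab' => by
        have h1 := hab'.paste_horiz sq
        have h3 := ξ.fibres (t ≫ p) (hfib t ht) F _ b' h1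
        refine 𝒞.iso_closed _ _ _ _ (Iso.refl _) ?_ h3
        refine LineBundle.Iso.trans (LineBundle.pullback_comp _ _ _).symm ?_
        exact (LineBundle.pullback_id _).symm }
  let φ : ξ ⟶ η :=
    { h := Over.homMk i hiθ
      G := pullback.lift (𝟙 _) (ξ.fam.f ≫ i) (by simp [hip])
      isPullback := by
        have h1 : IsPullback (𝟙 ξ.fam.X) ξ.fam.f ξ.fam.f (𝟙 _) := IsPullback.id_horiz _
        refine IsPullback.of_right (t := sq) ?_ ?_
        · rw [pullback.lift_fst]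
          change IsPullback _ _ _ (i ≫ p)
          rw [hip]
          exact h1
        · exact pullback.lift_snd _ _ _
      iso := by
        refine ⟨.trivial _, ?_⟩
        refine LineBundle.Iso.trans (LineBundle.pullback_comp _ _ _).symm ?_
        rw [pullback.lift_fst]
        exact (LineBundle.pullback_id _).trans ((LineBundle.tensor_trivial _).symm.trans
          ((LineBundle.Iso.refl _).tensor (LineBundle.pullback_trivial _).symm)) }
  let χ : η ⟶ ξ := hξ.from η
  have hφχ : φ ≫ χ = 𝟙 ξ := hξ.hom_ext _ _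
  obtain ⟨r, hr⟩ : ∃ r : Spec B ⟶ ξ.S.left, r = χ.h.left := ⟨_, rfl⟩
  have hir : i ≫ r = 𝟙 _ := by
    have h1 := congrArg (fun m : ξ ⟶ ξ => m.h.left) hφχ
    rw [hr]
    exact h1
  have hrθ : r ≫ ξ.S.hom = θ := by
    rw [hr]
    exact Over.w χ.h
  -- the ring homomorphism
  obtain ⟨ψ, hψ⟩ := Spec.map_surjective (r ≫ a)
  refine ⟨ψ.hom, fun x => ?_, fun c => ?_⟩
  · have h1 : i₀ ≫ (r ≫ a) = 𝟙 _ := by
      have h2 : b ≫ (i ≫ r) ≫ a = 𝟙 _ := by
        rw [hir, Category.id_comp, hba]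
      rw [hidef, Category.assoc, Category.assoc, reassoc_of% hba] at h2
      exact h2
    rw [← hψ, hi₀', ← Spec.map_comp, ← Spec.map_id] at h1
    have h4 := Spec.map_injective h1
    exact congrArg (fun g => g.hom x) h4
  · have hw : (r ≫ a) ≫ Spec.map (CommRingCat.ofHom (algebraMap ℂ A)) = θ := by
      rw [Category.assoc, ha, hrθ]
    rw [← hψ, ← Spec.map_comp] at hw
    have h4 := Spec.map_injective hw
    exact congrArg (fun g => g.hom c) h4

/-- If `Spec A` is the moduli stack of a class of polarized manifolds then every derivation of `ℂ`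
(given by `τ`) extends to a derivation of `A` (given by `ψ`). -/
theorem exists_lift (𝒞 : PolClass) (A : Type) [CommRing A] [Algebra ℂ A] [Algebra.FiniteType ℂ A]
    (h : IsModuliStack 𝒞 (SpecOver A)) (τ : ℂ →+* DualNumber ℂ)
    (hτ : ∀ c, TrivSqZeroExt.fst (τ c) = c) :
    ∃ ψ : A →+* DualNumber A, (∀ a, TrivSqZeroExt.fst (ψ a) = a) ∧
      ∀ c, ψ (algebraMap ℂ A c) = twist τ hτ A c := by
  obtain ⟨e, ⟨iso⟩⟩ := h
  have hZ : LocallyOfFiniteType (SpecOver A).hom := by
    change LocallyOfFiniteType (Spec.map (CommRingCat.ofHom (algebraMap ℂ A)))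
    rw [HasRingHomProperty.Spec_iff (P := @LocallyOfFiniteType)]
    exact (RingHom.finiteType_algebraMap (A := ℂ) (B := A)).2 inferInstance
  obtain ⟨hT⟩ := isTerminal_top (SpecOver A) hZ
  let ξ : ModuliStack 𝒞 := e.inverse.obj (top (SpecOver A) hZ)
  have hξ : IsTerminal ξ := hT.isTerminalObj e.inverse _
  let α : ξ.S ≅ SpecOver A := (iso.app ξ).symm ≪≫
    (SchemesOver.base (SpecOver A)).mapIso (e.counitIso.app (top (SpecOver A) hZ))
  refine exists_lift_of_isTerminal 𝒞 A ξ hξ α.hom.left α.inv.left ?_ ?_ (Over.w α.hom) τ hτ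
  · exact congrArg (fun m : ξ.S ⟶ ξ.S => m.left) α.hom_inv_id
  · exact congrArg (fun m : SpecOver A ⟶ SpecOver A => m.left) α.inv_hom_id

end Pool.Agent.Helper2.MS
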