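import Pool.Agent.Helper2.MS.LineBundle

/-!
# Moduli stacks of polarized manifolds
-/

open AlgebraicGeometry CategoryTheory TopologicalSpace

noncomputable section

namespace Pool.Agent.Helper2.MS

/-- The condition `s i = (g i j) ^ n * s j`, on `W ∩ U i ∩ U j`. -/
def SecCompat {X : Scheme.{0}} (L : LineBundle X) (n : ℕ) (W : X.Opens)
    (s : ∀ i, Γ(X, W ⊓ L.U i)) : Prop :=
  ∀ i j, rs (V := W ⊓ L.U i ⊓ L.U j) inf_le_left (s i) =
    L.tr (W := W ⊓ L.U i ⊓ L.U j) (inf_le_left.trans inf_le_right) inf_le_right ^ n *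
      rs (V := W ⊓ L.U i ⊓ L.U j) (le_inf (inf_le_left.trans inf_le_left) inf_le_right) (s j)

/-- A section of the `n`-th power of `L` over the open subset `W`: functions `s i` on `W ∩ U i`
with `s i = (g i j) ^ n * s j`. -/
structure Sec {X : Scheme.{0}} (L : LineBundle X) (n : ℕ) (W : X.Opens) where
  /-- the components of the section -/
  s : ∀ i, Γ(X, W ⊓ L.U i)
  isCompat : SecCompat L n W s

lemma Sec.compat {X : Scheme.{0}} {L : LineBundle X} {n : ℕ} {W : X.Opens} (s : Sec L n W)
    (i j : L.ι) : res (V := W ⊓ L.U i ⊓ L.U j) inf_le_left (s.s i) =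
    L.tr (W := W ⊓ L.U i ⊓ L.U j) (inf_le_left.trans inf_le_right) inf_le_right ^ n *
      res (V := W ⊓ L.U i ⊓ L.U j) (le_inf (inf_le_left.trans inf_le_left) inf_le_right) (s.s j) :=
  s.isCompat i j

/-- The open subset where a section does not vanish. -/
def Sec.nonvanishing {X : Scheme.{0}} {L : LineBundle X} {n : ℕ} {W : X.Opens} (s : Sec L n W) :
    X.Opens := ⨆ i, X.basicOpen (s.s i)

/-- `L` is ample relative to `f : X ⟶ S`: every point of `S` has an affine open neighbourhood `V`
such that every point of `f⁻¹ V` lies in `X_s` for a section `s` over `f⁻¹ V` of some power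
`L ^ n`, `n ≥ 1`, for which `X_s` is affine. -/
def RelAmple {X S : Scheme.{0}} (f : X ⟶ S) (L : LineBundle X) : Prop :=
  ∀ y : S, ∃ V : S.Opens, IsAffineOpen V ∧ y ∈ V ∧ ∀ x ∈ f ⁻¹ᵁ V, ∃ n : ℕ, 1 ≤ n ∧
    ∃ s : Sec L n (f ⁻¹ᵁ V), x ∈ s.nonvanishing ∧ IsAffineOpen s.nonvanishing

/-- A family of polarized smooth projective varieties over `S`. -/
structure Family (S : Scheme.{0}) where
  /-- the total space -/
  X : Scheme.{0}
  /-- the projection to the base -/
  f : X ⟶ S
  /-- the polarization -/
  L : LineBundle X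
  smooth : Smooth f
  proper : IsProper f
  ample : RelAmple f L

/-- `(F, H)` is a polarized manifold: `F` is a connected smooth projective complex variety, `H` an
ample line bundle on `F`. -/
structure IsPolarizedManifold (F : Over (Spec (.of ℂ))) (H : LineBundle F.left) : Prop where
  smooth : Smooth F.hom
  proper : IsProper F.hom
  connected : ConnectedSpace F.left
  ample : RelAmple F.hom H

/-- A class of polarized manifolds, closed under isomorphisms. -/
structure PolClass where
  /-- the members of the class -/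
  mem : ∀ F : Over (Spec (.of ℂ)), LineBundle F.left → Prop
  isPolarizedManifold : ∀ F H, mem F H → IsPolarizedManifold F H
  iso_closed : ∀ (F F' : Over (Spec (.of ℂ))) (H : LineBundle F.left) (H' : LineBundle F'.left)
    (e : F ≅ F'), H.Iso (H'.pullback e.hom.left) → mem F' H' → mem F H

/-- An object of the moduli stack of the class `𝒞`: a scheme `S`, locally of finite type over `ℂ`,
and a family over `S` of polarized smooth projective varieties, all fibres of which are in `𝒞`. -/
structure ModuliStack (𝒞 : PolClass) where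
  /-- the base -/
  S : Over (Spec (.of ℂ))
  locallyOfFiniteType : LocallyOfFiniteType S.hom
  /-- the family -/
  fam : Family S.left
  fibres : ∀ t : Spec (.of ℂ) ⟶ S.left, t ≫ S.hom = 𝟙 _ →
    ∀ (F : Scheme.{0}) (a : F ⟶ fam.X) (b : F ⟶ Spec (.of ℂ)), IsPullback a b fam.f t →
      𝒞.mem (Over.mk b) (fam.L.pullback a)

namespace ModuliStack

variable {𝒞 : PolClass}

/-- A morphism of the moduli stack: a morphism `h` of the bases and a cartesian diagram over it (that
is, an isomorphism of `X'` with the base change of `X`) such that the pull-back of `L` is isomorphic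
to `L' ⊗ f'^* B` for some line bundle `B` on the base. -/
@[ext]
structure Hom (M' M : ModuliStack 𝒞) where
  /-- the morphism of the bases -/
  h : M'.S ⟶ M.S
  /-- the morphism of the total spaces -/
  G : M'.fam.X ⟶ M.fam.X
  isPullback : IsPullback G M'.fam.f M.fam.f h.left
  iso : ∃ B : LineBundle M'.S.left,
    (M.fam.L.pullback G).Iso (M'.fam.L.tensor (B.pullback M'.fam.f))

lemma id_iso (M : ModuliStack 𝒞) : ∃ B : LineBundle M.S.left,
    (M.fam.L.pullback (𝟙 _)).Iso (M.fam.L.tensor (B.pullback M.fam.f)) :=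
  ⟨.trivial _, (LineBundle.pullback_id _).trans ((LineBundle.tensor_trivial _).symm.trans
    ((LineBundle.Iso.refl _).tensor (LineBundle.pullback_trivial _).symm))⟩

/-- The identity. -/
def id (M : ModuliStack 𝒞) : Hom M M where
  h := 𝟙 _
  G := 𝟙 _
  isPullback := IsPullback.id_horiz _
  iso := M.id_iso

/-- The composition. -/
def comp {M₁ M₂ M₃ : ModuliStack 𝒞} (φ : Hom M₁ M₂) (ψ : Hom M₂ M₃) : Hom M₁ M₃ where
  h := φ.h ≫ ψ.h
  G := φ.G ≫ ψ.G
  isPullback := by
    rw [Over.comp_left]
    exact φ.isPullback.paste_horiz ψ.isPullback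
  iso := by
    obtain ⟨B, hB⟩ := φ.iso
    obtain ⟨B', hB'⟩ := ψ.iso
    refine ⟨B.tensor (B'.pullback φ.h.left), ?_⟩
    refine (LineBundle.pullback_comp _ _ _).trans ((hB'.pullback φ.G).trans ?_)
    refine (LineBundle.pullback_tensor _ _ _).trans ?_
    refine (hB.tensor (LineBundle.Iso.refl _)).trans ?_
    refine (LineBundle.tensor_assoc _ _ _).trans ((LineBundle.Iso.refl _).tensor ?_)
    refine LineBundle.Iso.trans ?_ (LineBundle.pullback_tensor _ _ _).symm
    refine (LineBundle.Iso.refl _).tensor ?_
    refine (LineBundle.pullback_comp _ _ _).symm.trans ?_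
    rw [φ.isPullback.w]
    exact LineBundle.pullback_comp _ _ _

instance : Category (ModuliStack 𝒞) where
  Hom := Hom
  id := id
  comp := comp
  id_comp _ := Hom.ext (Category.id_comp _) (Category.id_comp _)
  comp_id _ := Hom.ext (Category.comp_id _) (Category.comp_id _)
  assoc _ _ _ := Hom.ext (Category.assoc _ _ _) (Category.assoc _ _ _)

/-- The base of a family. -/
def base (𝒞 : PolClass) : ModuliStack 𝒞 ⥤ Over (Spec (.of ℂ)) where
  obj M := M.S
  map φ := φ.h

end ModuliStack

/-- The schemes over `Z` which are locally of finite type over `ℂ`. -/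
abbrev SchemesOver (Z : Over (Spec (.of ℂ))) :=
  ObjectProperty.FullSubcategory (C := Over Z) fun T => LocallyOfFiniteType T.left.hom

/-- The underlying scheme over `ℂ` of a scheme over `Z`. -/
abbrev SchemesOver.base (Z : Over (Spec (.of ℂ))) : SchemesOver Z ⥤ Over (Spec (.of ℂ)) :=
  ObjectProperty.ι _ ⋙ Over.forget Z

/-- The moduli stack of the class `𝒞` is isomorphic to `Z` (the quotient stack of `Z` by the trivial
group): there is an equivalence of fibred categories. -/
def IsModuliStack (𝒞 : PolClass) (Z : Over (Spec (.of ℂ))) : Prop :=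
  ∃ e : ModuliStack 𝒞 ≌ SchemesOver Z,
    Nonempty (e.functor ⋙ SchemesOver.base Z ≅ ModuliStack.base 𝒞)

end Pool.Agent.Helper2.MS
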