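import Pool.Agent.Helper2.MS.Algebra

/-!
# The four lines form a reduced scheme; there are transcendental numbers
-/

open MvPolynomial

noncomputable section

namespace Pool.Agent.Helper2.MS

lemma dvd_of_ev {c : ℂ} {f : MvPolynomial (Fin 2) ℂ} (h : ev c 1 f = 0) : X 0 - C c * X 1 ∣ f := by
  have h1 : ((Polynomial.aeval (Ideal.Quotient.mk (Ideal.span {X 0 - C c * X 1}) (X 1)) :
      Polynomial ℂ →ₐ[ℂ] (MvPolynomial (Fin 2) ℂ ⧸ Ideal.span {X 0 - C c * X 1})).comp (ev c 1)) =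
      Ideal.Quotient.mkₐ ℂ (Ideal.span {X 0 - C c * X 1}) := by
    ext i
    fin_cases i
    · simp only [AlgHom.comp_apply, Fin.zero_eta, ev_X0, map_mul, Polynomial.aeval_C,
        Polynomial.aeval_X, Ideal.Quotient.mkₐ_eq_mk]
      have h2 : algebraMap ℂ (MvPolynomial (Fin 2) ℂ ⧸ Ideal.span {X 0 - C c * X 1}) c =
        Ideal.Quotient.mk _ (C c) := rfl
      rw [h2, ← map_mul, eq_comm, Ideal.Quotient.eq]
      exact Ideal.mem_span_singleton_self _
    · simp only [AlgHom.comp_apply, Fin.mk_one, ev_X1, map_mul, Polynomial.aeval_C, map_one,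
        Polynomial.aeval_X, Ideal.Quotient.mkₐ_eq_mk, one_mul]
  have h2 := congrArg (fun g => g f) h1
  simp only [AlgHom.comp_apply, h, map_zero, Ideal.Quotient.mkₐ_eq_mk] at h2
  exact Ideal.mem_span_singleton.1 (Ideal.Quotient.eq_zero_iff_mem.1 h2.symm)

lemma dvd_of_ev' {f : MvPolynomial (Fin 2) ℂ} (h : ev 1 0 f = 0) : X 1 ∣ f := by
  have h1 : ((Polynomial.aeval (Ideal.Quotient.mk
      (Ideal.span {(X 1 : MvPolynomial (Fin 2) ℂ)}) (X 0)) :
      Polynomial ℂ →ₐ[ℂ] (MvPolynomial (Fin 2) ℂ ⧸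
        Ideal.span {(X 1 : MvPolynomial (Fin 2) ℂ)})).comp (ev 1 0)) =
      Ideal.Quotient.mkₐ ℂ (Ideal.span {(X 1 : MvPolynomial (Fin 2) ℂ)}) := by
    ext i
    fin_cases i
    · simp only [AlgHom.comp_apply, Fin.zero_eta, ev_X0, map_mul, Polynomial.aeval_C, map_one,
        Polynomial.aeval_X, Ideal.Quotient.mkₐ_eq_mk, one_mul]
    · simp only [AlgHom.comp_apply, Fin.mk_one, ev_X1, map_mul, map_zero, zero_mul,
        Ideal.Quotient.mkₐ_eq_mk]
      exact (Ideal.Quotient.eq_zero_iff_mem.2 (Ideal.mem_span_singleton_self _)).symm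
  have h2 := congrArg (fun g => g f) h1
  simp only [AlgHom.comp_apply, h, map_zero, Ideal.Quotient.mkₐ_eq_mk] at h2
  exact Ideal.mem_span_singleton.1 (Ideal.Quotient.eq_zero_iff_mem.1 h2.symm)

lemma quartic_dvd {l : ℂ} (h0 : l ≠ 0) (h1 : l ≠ 1) {f : MvPolynomial (Fin 2) ℂ}
    (f1 : ev 0 1 f = 0) (f2 : ev 1 0 f = 0) (f3 : ev 1 1 f = 0) (f4 : ev l 1 f = 0) :
    quartic l ∣ f := by
  obtain ⟨g1, rfl⟩ := dvd_of_ev f1
  have e2 : ev 1 0 g1 = 0 := by
    rw [map_mul] at f2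
    refine (mul_eq_zero.1 f2).resolve_left ?_
    simp [ev_X0, ev_X1, ev_C]
  have e3 : ev 1 1 g1 = 0 := by
    rw [map_mul] at f3
    refine (mul_eq_zero.1 f3).resolve_left ?_
    simp [ev_X0, ev_X1, ev_C]
  have e4 : ev l 1 g1 = 0 := by
    rw [map_mul] at f4
    refine (mul_eq_zero.1 f4).resolve_left ?_
    simp [ev_X0, ev_X1, ev_C, h0]
  obtain ⟨g2, rfl⟩ := dvd_of_ev' e2
  have k3 : ev 1 1 g2 = 0 := by
    rw [map_mul] at e3
    refine (mul_eq_zero.1 e3).resolve_left ?_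
    simp [ev_X1]
  have k4 : ev l 1 g2 = 0 := by
    rw [map_mul] at e4
    refine (mul_eq_zero.1 e4).resolve_left ?_
    simp [ev_X1]
  obtain ⟨g3, rfl⟩ := dvd_of_ev k3
  have m4 : ev l 1 g3 = 0 := by
    rw [map_mul] at k4
    refine (mul_eq_zero.1 k4).resolve_left ?_
    have : ev l 1 (X 0 - C 1 * X 1) = Polynomial.C (l - 1) * Polynomial.X := by
      simp only [map_sub, map_mul, ev_X0, ev_X1, ev_C, map_one, one_mul]
      ring
    rw [this]
    exact mul_ne_zero (Polynomial.C_ne_zero.2 (sub_ne_zero.2 h1)) Polynomial.X_ne_zero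
  obtain ⟨g4, rfl⟩ := dvd_of_ev m4
  refine ⟨g4, ?_⟩
  simp only [quartic, map_zero, map_one]
  ring

lemma ev_quartic (l α β : ℂ) (h : α * β * (α - β) * (α - l * β) = 0) : ev α β (quartic l) = 0 := by
  have : ev α β (quartic l) = Polynomial.C (α * β * (α - β) * (α - l * β)) * Polynomial.X ^ 4 := by
    simp only [quartic, map_mul, map_sub, ev_X0, ev_X1, ev_C]
    ring
  rw [this, h, map_zero, zero_mul]

theorem isReduced_coordRing {l : ℂ} (h0 : l ≠ 0) (h1 : l ≠ 1) : IsReduced (CoordRing l) := by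
  refine ⟨fun x hx => ?_⟩
  obtain ⟨f, rfl⟩ := Ideal.Quotient.mk_surjective x
  obtain ⟨n, hn⟩ := hx
  rw [← map_pow] at hn
  obtain ⟨g, hg⟩ := Ideal.mem_span_singleton.1 (Ideal.Quotient.eq_zero_iff_mem.1 hn)
  have key : ∀ α β : ℂ, α * β * (α - β) * (α - l * β) = 0 → ev α β f = 0 := by
    intro α β h
    have h2 := congrArg (ev α β) hg
    rw [map_mul, ev_quartic l α β h, zero_mul, map_pow] at h2
    exact eq_zero_of_pow_eq_zero h2
  exact Ideal.Quotient.eq_zero_iff_mem.2 (Ideal.mem_span_singleton.2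
    (quartic_dvd h0 h1 (key 0 1 (by ring)) (key 1 0 (by ring)) (key 1 1 (by ring))
      (key l 1 (by ring))))

theorem exists_transcendental : ∃ l : ℂ, Transcendental ℚ l := by
  by_contra h
  have h0 : ∀ l : ℂ, IsAlgebraic ℚ l := by
    intro l
    by_contra hl
    exact h ⟨l, hl⟩
  have h1 : {x : ℂ | IsAlgebraic ℚ x}.Countable := Algebraic.countable ℚ ℂ
  have h2 : {x : ℂ | IsAlgebraic ℚ x} = Set.univ := by
    ext x
    simpa using h0 x
  rw [h2] at h1
  have h3 := Complex.ofReal_injective.preimage_image (Set.univ : Set ℝ)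
  have h4 : (Set.univ : Set ℝ).Countable := by
    have := h1.preimage Complex.ofReal_injective
    simpa using this
  exact Cardinal.not_countable_real h4

end Pool.Agent.Helper2.MS
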