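import Pool.Agent.Helper2.MS.Moduli

/-!
# Twisting by a derivation of `ℂ`
-/

open AlgebraicGeometry CategoryTheory TopologicalSpace Limits

noncomputable section

namespace Pool.Agent.Helper2.MS

/-- The homomorphism `c ↦ c + D(c) ε` from `ℂ` to `A[ε]`, for the derivation `D` of `ℂ` given by
`τ (c) = c + D(c) ε`. -/
def twist (τ : ℂ →+* DualNumber ℂ) (hτ : ∀ c, TrivSqZeroExt.fst (τ c) = c) (A : Type) [CommRing A]
    [Algebra ℂ A] : ℂ →+* DualNumber A where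
  toFun c := TrivSqZeroExt.inl (algebraMap ℂ A c) +
    TrivSqZeroExt.inr (algebraMap ℂ A (TrivSqZeroExt.snd (τ c)))
  map_one' := by
    ext
    · simp only [map_one, TrivSqZeroExt.fst_add, TrivSqZeroExt.fst_inl, TrivSqZeroExt.fst_inr,
        add_zero, TrivSqZeroExt.fst_one]
    · simp only [map_one, TrivSqZeroExt.snd_add, TrivSqZeroExt.snd_inl, TrivSqZeroExt.snd_inr,
        zero_add, TrivSqZeroExt.snd_one, map_zero]
  map_zero' := by
    ext
    · simp only [map_zero, TrivSqZeroExt.fst_add, TrivSqZeroExt.fst_inl, TrivSqZeroExt.fst_inr,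
        add_zero, TrivSqZeroExt.fst_zero]
    · simp only [map_zero, TrivSqZeroExt.snd_add, TrivSqZeroExt.snd_inl, TrivSqZeroExt.snd_inr,
        zero_add, TrivSqZeroExt.snd_zero]
  map_add' a b := by
    ext
    · simp only [map_add, TrivSqZeroExt.fst_add, TrivSqZeroExt.fst_inl, TrivSqZeroExt.fst_inr,
        add_zero]
    · simp only [map_add, TrivSqZeroExt.snd_add, TrivSqZeroExt.snd_inl, TrivSqZeroExt.snd_inr,
        zero_add]
  map_mul' a b := by
    ext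
    · simp only [map_mul, TrivSqZeroExt.fst_mul, TrivSqZeroExt.fst_add, TrivSqZeroExt.fst_inl,
        TrivSqZeroExt.fst_inr, add_zero]
    · simp only [map_mul, map_add, TrivSqZeroExt.snd_mul, TrivSqZeroExt.fst_add,
        TrivSqZeroExt.fst_inl, TrivSqZeroExt.snd_add,
        TrivSqZeroExt.fst_inr, add_zero, zero_add, TrivSqZeroExt.snd_inl, TrivSqZeroExt.snd_inr,
        hτ, smul_eq_mul, MulOpposite.smul_eq_mul_unop, MulOpposite.unop_op]

lemma fst_twist (τ : ℂ →+* DualNumber ℂ) (hτ : ∀ c, TrivSqZeroExt.fst (τ c) = c) (A : Type)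
    [CommRing A] [Algebra ℂ A] (c : ℂ) :
    TrivSqZeroExt.fst (twist τ hτ A c) = algebraMap ℂ A c := by
  simp only [twist, RingHom.coe_mk, MonoidHom.coe_mk, OneHom.coe_mk, TrivSqZeroExt.fst_add,
    TrivSqZeroExt.fst_inl, TrivSqZeroExt.fst_inr, add_zero]

lemma snd_twist (τ : ℂ →+* DualNumber ℂ) (hτ : ∀ c, TrivSqZeroExt.fst (τ c) = c) (A : Type)
    [CommRing A] [Algebra ℂ A] (c : ℂ) :
    TrivSqZeroExt.snd (twist τ hτ A c) = algebraMap ℂ A (TrivSqZeroExt.snd (τ c)) := by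
  simp only [twist, RingHom.coe_mk, MonoidHom.coe_mk, OneHom.coe_mk, TrivSqZeroExt.snd_add,
    TrivSqZeroExt.snd_inl, TrivSqZeroExt.snd_inr, zero_add]

lemma finiteType_twist (τ : ℂ →+* DualNumber ℂ) (hτ : ∀ c, TrivSqZeroExt.fst (τ c) = c) (A : Type)
    [CommRing A] [Algebra ℂ A] [hA : Algebra.FiniteType ℂ A] : (twist τ hτ A).FiniteType := by
  obtain ⟨⟨s, hs⟩⟩ := hA
  let Φ : MvPolynomial (s ⊕ Unit) ℂ →+* DualNumber A :=
    MvPolynomial.eval₂Hom (twist τ hτ A) (Sum.elim (fun a => TrivSqZeroExt.inl (a : A))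
      (fun _ => TrivSqZeroExt.inr 1))
  have hΦ : Φ.comp MvPolynomial.C = twist τ hτ A := by
    ext1 c
    simp [Φ]
  have hε : (TrivSqZeroExt.inr 1 : DualNumber A) ∈ Φ.range :=
    ⟨MvPolynomial.X (Sum.inr ()), by simp [Φ]⟩
  have hc : ∀ c : ℂ, twist τ hτ A c ∈ Φ.range := fun c => ⟨MvPolynomial.C c, by simp [Φ]⟩
  have hinl : ∀ a : A, (TrivSqZeroExt.inl a : DualNumber A) ∈ Φ.range := by
    intro a
    have ha : a ∈ Algebra.adjoin ℂ (s : Set A) := hs ▸ Algebra.mem_top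
    induction ha using Algebra.adjoin_induction with
    | mem x hx => exact ⟨MvPolynomial.X (Sum.inl ⟨x, hx⟩), by simp [Φ]⟩
    | algebraMap c =>
      have h1 : (TrivSqZeroExt.inl (algebraMap ℂ A c) : DualNumber A) = twist τ hτ A c -
          twist τ hτ A (TrivSqZeroExt.snd (τ c)) * TrivSqZeroExt.inr 1 := by
        ext
        · simp [fst_twist]
        · simp [fst_twist, snd_twist]
      rw [h1]
      exact sub_mem (hc c) (mul_mem (hc _) hε)
    | add x y _ _ hx hy => rw [TrivSqZeroExt.inl_add]; exact add_mem hx hy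
    | mul x y _ _ hx hy => rw [TrivSqZeroExt.inl_mul]; exact mul_mem hx hy
  have hsurj : Function.Surjective Φ := by
    intro x
    have h1 : x = TrivSqZeroExt.inl x.fst + TrivSqZeroExt.inl x.snd * TrivSqZeroExt.inr 1 := by
      ext <;> simp
    rw [h1]
    exact add_mem (hinl _) (mul_mem (hinl _) hε)
  rw [← hΦ]
  refine RingHom.FiniteType.comp (RingHom.FiniteType.of_surjective Φ hsurj) ?_
  have : Algebra.FiniteType ℂ (MvPolynomial (s ⊕ Unit) ℂ) := inferInstance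
  exact (RingHom.finiteType_algebraMap (A := ℂ) (B := MvPolynomial (s ⊕ Unit) ℂ)).2 this

lemma Sec.pullback_compat {X X' : Scheme.{0}} {L : LineBundle X} {n : ℕ} {W : X.Opens}
    (s : Sec L n W) (G : X' ⟶ X) (i j : L.ι) :
    res (V := G ⁻¹ᵁ W ⊓ G ⁻¹ᵁ (L.U i) ⊓ G ⁻¹ᵁ (L.U j)) (U := G ⁻¹ᵁ (W ⊓ L.U i)) inf_le_left
      ((G.app (W ⊓ L.U i)).hom (s.s i)) =
    (L.pullback G).tr (i := i) (j := j) (W := G ⁻¹ᵁ W ⊓ G ⁻¹ᵁ (L.U i) ⊓ G ⁻¹ᵁ (L.U j))
      (inf_le_left.trans inf_le_right) inf_le_right ^ n *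
      res (V := G ⁻¹ᵁ W ⊓ G ⁻¹ᵁ (L.U i) ⊓ G ⁻¹ᵁ (L.U j)) (U := G ⁻¹ᵁ (W ⊓ L.U j))
        (le_inf (inf_le_left.trans inf_le_left) inf_le_right)
        ((G.app (W ⊓ L.U j)).hom (s.s j)) := by
  have h1 := congrArg (G.app (W ⊓ L.U i ⊓ L.U j)).hom (s.compat i j)
  rw [map_mul, map_pow, app_res, app_res, L.app_tr] at h1
  exact h1

/-- The pull-back of a section. -/
def Sec.pullback {X X' : Scheme.{0}} {L : LineBundle X} {n : ℕ} {W : X.Opens}
    (s : Sec L n W) (G : X' ⟶ X) : Sec (L.pullback G) n (G ⁻¹ᵁ W) where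
  s := fun i => (G.app (W ⊓ L.U i)).hom (s.s i)
  isCompat := fun i j => s.pullback_compat G i j

lemma Sec.nonvanishing_pullback {X X' : Scheme.{0}} {L : LineBundle X} {n : ℕ} {W : X.Opens}
    (s : Sec L n W) (G : X' ⟶ X) : (s.pullback G).nonvanishing = G ⁻¹ᵁ s.nonvanishing := by
  rw [Sec.nonvanishing, Sec.nonvanishing, Scheme.Hom.preimage_iSup]
  congr 1
  ext1 i
  rw [Scheme.preimage_basicOpen]
  rfl

/-- Relative ampleness is preserved by affine base change. -/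
lemma RelAmple.baseChange {X S X' S' : Scheme.{0}} {f : X ⟶ S} {L : LineBundle X} (h : RelAmple f L)
    {G : X' ⟶ X} {f' : X' ⟶ S'} {p : S' ⟶ S} (hp : IsAffineHom p) (sq : IsPullback G f' f p) :
    RelAmple f' (L.pullback G) := by
  have hG : IsAffineHom G := MorphismProperty.of_isPullback sq.flip hp
  intro y
  obtain ⟨V, hV, hy, hx⟩ := h (p y)
  refine ⟨p ⁻¹ᵁ V, hV.preimage p, hy, fun x hxV => ?_⟩
  have hxV' : G x ∈ f ⁻¹ᵁ V := by
    have h1 : p (f' x) ∈ V := hxV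
    have h2 : f (G x) = p (f' x) := by
      rw [← Scheme.Hom.comp_apply, ← Scheme.Hom.comp_apply, sq.w]
    change f (G x) ∈ V
    rwa [h2]
  obtain ⟨n, hn, s, hs, hs'⟩ := hx (G x) hxV'
  have hW : f' ⁻¹ᵁ (p ⁻¹ᵁ V) = G ⁻¹ᵁ (f ⁻¹ᵁ V) := by
    rw [← Scheme.Hom.comp_preimage, ← Scheme.Hom.comp_preimage, sq.w]
  rw [hW]
  refine ⟨n, hn, s.pullback G, ?_, ?_⟩
  · rw [Sec.nonvanishing_pullback]
    exact hs
  · rw [Sec.nonvanishing_pullback]
    exact hs'.preimage G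

end Pool.Agent.Helper2.MS
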